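import Pool.Agent.PCO.StmtsE

/-!
# Row E2A (first failure along a boundary ray, same apex)
-/

set_option autoImplicit false

open Matrix Filter Topology

namespace Pool.Agent.PCO.H7

open Pool.Agent.PFS Pool.Agent.PFJ

theorem e2a (hWBF : WbfStmt) (hBF1 : Bf1Stmt) (hBF2 : Bf2Stmt) (hBXM : BxmStmt) : E2aStmt := by
  intro n C Γ d H U v Um vm f c κ hB hdim hLU hκ hf hc hF
  obtain ⟨φ, k, g, s, ρ, U1, U2, f1, v1, v2, hφ, hk, hg, hs, hρ, hB1, hd1, hB2, hd2, hf1, hT1,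
    hTv, hTv2, hL1, hL2, hne, ⟨B, hB0, hBd⟩, hTR⟩ := hF
  have hCC : CC C Γ := H.toCC
  have hP : PCone C := hCC.toPCone
  have hM := H.maxc
  obtain ⟨hvL, hvC, hv0, hvU, -, -, -, -, -⟩ := hBF1 n C Γ hCC hM U v hB
  obtain ⟨-, -, hv10, -, -, hadd1, -, -, -⟩ := hBF1 n C Γ hCC hM U1 v1 hB1
  obtain ⟨-, -, hv20, -, -, -, -, -, -⟩ := hBF1 n C Γ hCC hM U2 v2 hB2
  have hfU : f ∈ U := hf.1
  have hfC : f ∈ closure C := hf.2.1
  have hcU : c ∈ U := hc.1
  have hcC : c ∈ closure C := hc.2.1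
  have hc0 : c ≠ 0 := hc.2.2.1
  have hcu : ¬ Unt C U c := hc.2.2.2
  -- the zoom maps
  have Gadd : ∀ m (x y : V n), s m • act (g m) (x + y) = s m • act (g m) x + s m • act (g m) y := by
    intro m x y; rw [CC.act_add, smul_add]
  have Gsub : ∀ m (x y : V n), s m • act (g m) (x - y) = s m • act (g m) x - s m • act (g m) y := by
    intro m x y; rw [CC.act_sub, smul_sub]
  have Gsmul : ∀ m (t : ℝ) (x : V n), s m • act (g m) (t • x) = t • (s m • act (g m) x) := by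
    intro m t x; rw [CC.act_smul, smul_comm]
  have Gcl : ∀ m (x : V n), s m • act (g m) x ∈ closure C ↔ x ∈ closure C := by
    intro m x; exact hCC.sact_cl_iff (hg m) (hs m)
  have hTv' : Tendsto (fun m => s m • act (g m) v) atTop (𝓝 v1) := by
    have : (fun m => s m • act (g m) ((1 + (2 : ℝ) ^ (k m) * 0) • v))
        = fun m => s m • act (g m) v := by
      funext m; rw [mul_zero, add_zero, one_smul]
    rwa [this] at hTv
  -- v2 = τ v1
  obtain ⟨τ, hτ, hv2⟩ : ∃ τ : ℝ, 0 < τ ∧ v2 = τ • v1 := by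
    have e1 : ∀ m, s m • act (g m) (ρ m • vm (φ m))
        = (ρ m * κ (φ m)) • (s m • act (g m) v) := by
      intro m
      rw [(hκ (φ m)).2, smul_smul, Gsmul]
    have hpos : ∀ m, 0 < ρ m * κ (φ m) := fun m => mul_pos (hρ m) (hκ (φ m)).1
    have hn2 : Tendsto (fun m => (ρ m * κ (φ m)) * ‖s m • act (g m) v‖) atTop (𝓝 ‖v2‖) := by
      have h1 := hTv2.norm
      refine h1.congr fun m => ?_
      rw [e1 m, norm_smul, Real.norm_eq_abs, abs_of_pos (hpos m)]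
    have hn1 : Tendsto (fun m => ‖s m • act (g m) v‖) atTop (𝓝 ‖v1‖) := hTv'.norm
    have hv1n : ‖v1‖ ≠ 0 := (norm_pos_iff.2 hv10).ne'
    have hq : Tendsto (fun m => (ρ m * κ (φ m)) * ‖s m • act (g m) v‖ / ‖s m • act (g m) v‖)
        atTop (𝓝 (‖v2‖ / ‖v1‖)) := hn2.div hn1 hv1n
    have hq' : Tendsto (fun m => ρ m * κ (φ m)) atTop (𝓝 (‖v2‖ / ‖v1‖)) := by
      refine hq.congr' ?_
      have hev : ∀ᶠ m in atTop, 0 < ‖s m • act (g m) v‖ :=
        hn1.eventually (lt_mem_nhds (norm_pos_iff.2 hv10))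
      filter_upwards [hev] with m hm
      rw [mul_div_assoc, div_self hm.ne', mul_one]
    refine ⟨‖v2‖ / ‖v1‖, div_pos (norm_pos_iff.2 hv20) (norm_pos_iff.2 hv10), ?_⟩
    have h3 : Tendsto (fun m => s m • act (g m) (ρ m • vm (φ m))) atTop
        (𝓝 ((‖v2‖ / ‖v1‖) • v1)) := by
      have := hq'.smul hTv'
      refine this.congr fun m => ?_
      rw [e1 m]
    exact tendsto_nhds_unique hTv2 h3
  have hB2' : Bx C Γ U2 v1 := by
    obtain ⟨-, -, -, -, h5, -, -⟩ := hBF2 n C Γ hCC hM U2 v2 hB2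
    have := h5 τ⁻¹ (inv_pos.2 hτ)
    rwa [hv2, smul_smul, inv_mul_cancel₀ hτ.ne', one_smul] at this
  have hU12 : U1 ≠ U2 := by
    intro he
    apply hne
    rw [he, hv2, (hWBF n).2.2.1 U2 v1 τ hτ.ne']
  -- subsequence
  obtain ⟨b, -, θ, hθ, hTb⟩ : ∃ b ∈ closure (Metric.closedBall (0 : V n) (B * ‖f‖)),
      ∃ θ : ℕ → ℕ, StrictMono θ ∧
        Tendsto ((fun m => s m • act (g m) f) ∘ θ) atTop (𝓝 b) := by
    refine tendsto_subseq_of_bounded Metric.isBounded_closedBall fun m => ?_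
    rw [mem_closedBall_zero_iff]
    exact hBd m f
  have hTb' : Tendsto (fun m => s (θ m) • act (g (θ m)) f) atTop (𝓝 b) := hTb
  have hbC : b ∈ closure C := by
    refine isClosed_closure.mem_of_tendsto hTb' (Eventually.of_forall fun m => ?_)
    exact (Gcl (θ m) f).2 hfC
  have hbU1 : b ∈ U1 := by
    refine hL1.2 θ (fun m => s (θ m) • act (g (θ m)) f) b hθ (fun m => ?_) hTb'
    exact Submodule.smul_mem _ _ (mem_img.2 ⟨f, hfU, rfl⟩)
  have hT1θ : Tendsto (fun m => s (θ m) • act (g (θ m)) (f + (2 : ℝ) ^ (k (θ m)) • c)) atTop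
      (𝓝 f1) := hT1.comp hθ.tendsto_atTop
  have hTvθ : Tendsto (fun m => s (θ m) • act (g (θ m)) v) atTop (𝓝 v1) :=
    hTv'.comp hθ.tendsto_atTop
  have hTh : Tendsto (fun m => (2 : ℝ) ^ (k (θ m)) • (s (θ m) • act (g (θ m)) c)) atTop
      (𝓝 (f1 - b)) := by
    refine (hT1θ.sub hTb').congr fun m => ?_
    rw [Gadd, Gsmul, add_sub_cancel_left]
  have hbU2 : b ∈ U2 := by
    obtain ⟨fm, hfm, hfmt⟩ := hLU.1 f hfU
    have h1 : Tendsto (fun m => s m • act (g m) (fm (φ m) - f)) atTop (𝓝 0) :=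
      hTR (fun m => fm (φ m)) f (hfmt.comp hφ.tendsto_atTop)
    have h2 : Tendsto (fun m => s (θ m) • act (g (θ m)) (fm (φ (θ m)) - f)) atTop (𝓝 0) :=
      h1.comp hθ.tendsto_atTop
    have h3 : Tendsto (fun m => s (θ m) • act (g (θ m)) (fm (φ (θ m)))) atTop (𝓝 b) := by
      have := h2.add hTb'
      rw [zero_add] at this
      refine this.congr fun m => ?_
      rw [Gsub, sub_add_cancel]
    refine hL2.2 θ (fun m => s (θ m) • act (g (θ m)) (fm (φ (θ m)))) b hθ (fun m => ?_) h3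
    exact Submodule.smul_mem _ _ (mem_img.2 ⟨fm (φ (θ m)), hfm _, rfl⟩)
  have hf1U : f1 ∈ U1 := hf1.1
  have hhU : f1 - b ∈ U1 := U1.sub_mem hf1U hbU1
  have hkθ : Tendsto (fun m => k (θ m)) atTop atTop := hk.comp hθ.tendsto_atTop
  -- b ≠ 0
  have hb0 : b ≠ 0 := by
    intro hb
    rw [hb, sub_zero] at hTh
    rw [hb] at hTb'
    have hlim : Tendsto (fun m => s (θ m) • act (g (θ m))
        ((2 : ℝ) ^ (k (θ m)) • c - f + (1 : ℝ) • v)) atTop (𝓝 (f1 + (1 : ℝ) • v1)) := by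
      have h1 := (hTh.sub hTb').add hTvθ
      rw [sub_zero] at h1
      rw [one_smul ℝ v1]
      refine h1.congr fun m => ?_
      rw [one_smul, Gadd, Gsub, Gsmul]
    have hin : f1 + (1 : ℝ) • v1 ∈ C := (hadd1 f1 hf1U 1).2 ⟨hf1, one_pos⟩
    obtain ⟨m, hm⟩ := (hlim.eventually (hP.isOpen.mem_nhds hin)).exists
    have hm' := (Gcl (θ m) _).1 (subset_closure hm)
    have hm2 := (hB.comp _ (U.sub_mem (U.smul_mem _ hcU) hfU) 1 hm').1
    have hu : Unt C U ((2 : ℝ) ^ (k (θ m)) • c) :=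
      (Pool.Agent.PFJ.H76.unf n C hP U f hf).2.1 _ (U.smul_mem _ hcU) hm2
    have hu2 := (Pool.Agent.PFJ.H76.unf n C hP U _ hu).1 ((2 : ℝ) ^ (k (θ m)))⁻¹
      (by positivity)
    rw [smul_smul, inv_mul_cancel₀ (by positivity), one_smul] at hu2
    exact hcu hu2
  have hbn1 : ¬ Unt C U1 b := by
    intro hb
    obtain ⟨M, hM0, hMb⟩ := hb.2.2 _ hhU
    have hunit : Unt C U1 ((M + 1) • b - (f1 - b)) := by
      refine (Pool.Agent.PFJ.H76.unf n C hP U1 b hb).2.1 _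
        (U1.sub_mem (U1.smul_mem _ hbU1) hhU) ?_
      have : (M + 1) • b - (f1 - b) - b = M • b - (f1 - b) := by
        rw [add_smul, one_smul]; abel
      rwa [this]
    have hin : ((M + 1) • b - (f1 - b)) + (1 : ℝ) • v1 ∈ C :=
      (hadd1 _ (U1.sub_mem (U1.smul_mem _ hbU1) hhU) 1).2 ⟨hunit, one_pos⟩
    have hlim : Tendsto (fun m => s (θ m) • act (g (θ m))
        (((M + 1) • f - (2 : ℝ) ^ (k (θ m)) • c) + (1 : ℝ) • v)) atTop
        (𝓝 (((M + 1) • b - (f1 - b)) + (1 : ℝ) • v1)) := by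
      have h1 := ((hTb'.const_smul (M + 1)).sub hTh).add hTvθ
      rw [one_smul ℝ v1]
      refine h1.congr fun m => ?_
      rw [one_smul, Gadd, Gsub, Gsmul, Gsmul]
    have hev : ∀ᶠ m in atTop, (M + 1) • f - (2 : ℝ) ^ (k (θ m)) • c ∈ closure C := by
      filter_upwards [hlim.eventually (hP.isOpen.mem_nhds hin)] with m hm
      have hm' := (Gcl (θ m) _).1 (subset_closure hm)
      exact (hB.comp _ (U.sub_mem (U.smul_mem _ hfU) (U.smul_mem _ hcU)) 1 hm').1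
    have hinv : Tendsto (fun m => ((2 : ℝ) ^ (k (θ m)))⁻¹) atTop (𝓝 0) :=
      tendsto_inv_atTop_zero.comp
        ((tendsto_pow_atTop_atTop_of_one_lt (by norm_num : (1 : ℝ) < 2)).comp hkθ)
    have hlim2 : Tendsto (fun m => (((2 : ℝ) ^ (k (θ m)))⁻¹ * (M + 1)) • f - c) atTop
        (𝓝 (-c)) := by
      have h1 := ((hinv.mul_const (M + 1)).smul_const f).sub_const c
      rw [zero_mul, zero_smul, zero_sub] at h1
      exact h1
    have hmc : -c ∈ closure C := by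
      refine isClosed_closure.mem_of_tendsto hlim2 ?_
      filter_upwards [hev] with m hm
      have := hP.cl_smul_pos hm (t := ((2 : ℝ) ^ (k (θ m)))⁻¹) (by positivity)
      rwa [smul_sub, smul_smul, smul_smul, inv_mul_cancel₀ (by positivity), one_smul] at this
    exact hc0 (hP.salient c hcC hmc)
  have hbd1 : Bd C U1 b := ⟨hbU1, hbC, hb0, hbn1⟩
  have hExt : Ext C b := (hBXM n C Γ d H U1 v1 hB1 hd1).2.2.2.1 b hbd1
  have hbn2 : ¬ Unt C U2 b := by
    intro hb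
    have h6 := (Pool.Agent.PFJ.H76.unf n C hP U2 b hb).2.2.2.2.2 hExt
    have hle : Module.finrank ℝ U2 ≤ 1 := by
      refine finrank_le_one (⟨b, hbU2⟩ : U2) fun w => ?_
      obtain ⟨t, ht⟩ := h6 w.1 w.2
      exact ⟨t, Subtype.ext ht.symm⟩
    have := H.three
    omega
  exact ⟨U1, U2, v1, b, hB1, hB2', hd1, hd2, hU12, hbd1, ⟨hbU2, hbC, hb0, hbn2⟩⟩

end Pool.Agent.PCO.H7
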